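import Pool.Agent.H90.EH.All

/-!
MP_e3a811_co (equivariant `h*`-series when every fixed locus is a lattice polytope), Q1 for cyclic
groups of prime power order.  Let `G` be a cyclic group of order `p ^ r` acting on `ℤ^d` by affine
transformations, and `P` a full-dimensional lattice polytope invariant under `G` such that all fixed
loci `P^g` are lattice polytopes.  Then every coefficient of the equivariant `h*`-series of `P` is
the class of a permutation representation of `G`; in particular the series is effective.
-/

set_option autoImplicit false

namespace Pool.Agent.Results.MP_e3a811_co.CyclicPGroups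

open Pool.Agent.H90.EH

/-- **Theorem.**  Let `p` be a prime, `G` a cyclic group of order `p ^ r`, acting on the lattice
`ℤ^d` by affine transformations, `P` a lattice polytope with non-empty interior which is invariant
under `G`, and suppose that `{x ∈ P | g x = x}` is a lattice polytope for every `g`.  Then for every
`i` there is a finite `G`-set `X` such that for all `g` the value at `g` of the coefficient of `t^i`
in the equivariant `h*`-series `(1 + ∑_{m > 0} L(P, ρ; m) t^m) det(I - M̃ t)` is the number of fixed
points of `g` on `X`. -/
theorem result (p r : ℕ) (hp : p.Prime) (G : Type) [Group G] [Finite G] [IsCyclic G]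
    (hG : Nat.card G = p ^ r) (d : ℕ) (ρ : AffAct G d) (P : Set (Fin d → ℝ)) (hP : IsLatPoly P)
    (hint : (interior P).Nonempty) (hinv : ∀ g : G, ∀ x ∈ P, ρ.act g x ∈ P)
    (hfix : ∀ g : G, IsLatPoly {x | x ∈ P ∧ ρ.act g x = x}) (i : ℕ) :
    ∃ (X : Type) (_ : Finite X) (_ : MulAction G X), ∀ g : G,
      PowerSeries.coeff i (ρ.hstar P g) = (Nat.card (MulAction.fixedBy X g) : ℤ) := by
  obtain ⟨X, hX, hA, h⟩ := All.qFIN p r hp G inferInstance hG d ρ P hP hint hinv hfix i
  refine ⟨X, Finite.of_fintype X, hA, fun g => ?_⟩
  classical
  rw [h g, Nat.card_eq_fintype_card]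

end Pool.Agent.Results.MP_e3a811_co.CyclicPGroups
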